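import Mathlib

/-! # EN.Axis : a finite group in which all elements are conjugate into the stabiliser of a vector -/

namespace Pool.Agent.H37.EN

open MulAction

/-- A finite group which is the union of the conjugates of a subgroup is equal to the subgroup. -/
theorem top_of_conj {G : Type*} [Group G] [Finite G] (K : Subgroup G)
    (h : ∀ g : G, ∃ k : G, k⁻¹ * g * k ∈ K) : K = ⊤ := by
  classical
  have _ := Fintype.ofFinite G
  have hb := MulAction.sum_card_fixedBy_eq_card_orbits_mul_card_group G (G ⧸ K)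
  have hss : Subsingleton (Quotient (MulAction.orbitRel G (G ⧸ K))) := by
    constructor
    intro a b
    induction a using Quotient.inductionOn with
    | _ a =>
    induction b using Quotient.inductionOn with
    | _ b =>
    obtain ⟨g, hg⟩ := MulAction.exists_smul_eq G b a
    exact Quotient.sound ⟨g, hg⟩
  have hc : Fintype.card (Quotient (MulAction.orbitRel G (G ⧸ K))) = 1 :=
    Fintype.card_eq_one_iff.2 ⟨Quotient.mk _ ((1 : G) : G ⧸ K), fun y => Subsingleton.elim _ _⟩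
  rw [hc, one_mul] at hb
  have h1 : ∀ g : G, 1 ≤ Fintype.card (fixedBy (G ⧸ K) g) := by
    intro g
    obtain ⟨k, hk⟩ := h g
    have : Nonempty (fixedBy (G ⧸ K) g) := by
      refine ⟨⟨(k : G ⧸ K), ?_⟩⟩
      rw [mem_fixedBy, MulAction.Quotient.smul_coe, smul_eq_mul, eq_comm, QuotientGroup.eq,
        ← mul_assoc]
      exact hk
    exact Fintype.card_pos
  have h2 : Fintype.card (fixedBy (G ⧸ K) (1 : G)) = Fintype.card (G ⧸ K) := by
    rw [Fintype.card_eq]
    refine ⟨Equiv.subtypeUnivEquiv fun x => ?_⟩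
    rw [mem_fixedBy, one_smul]
  have h3 : ∑ g : G, 1 = Fintype.card G := by simp
  have h4 : Fintype.card (G ⧸ K) ≤ 1 := by
    by_contra hcon
    push Not at hcon
    have h5 : ∑ g : G, 1 < ∑ g : G, Fintype.card (fixedBy (G ⧸ K) g) :=
      Finset.sum_lt_sum (fun g _ => h1 g) ⟨1, Finset.mem_univ _, by rw [h2]; exact hcon⟩
    rw [hb, h3] at h5
    exact lt_irrefl _ h5
  rw [Subgroup.eq_top_iff']
  intro g
  have h5 := Fintype.card_le_one_iff.1 h4 ((1 : G) : G ⧸ K) (g : G ⧸ K)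
  rw [QuotientGroup.eq, inv_one, one_mul] at h5
  exact h5

/-- the characteristic polynomial of `g⁻¹` at one -/
lemma det_one_sub (g : Matrix.SpecialLinearGroup (Fin 3) ℂ) :
    (1 - (g : Matrix (Fin 3) (Fin 3) ℂ)).det =
      (↑(g⁻¹) : Matrix (Fin 3) (Fin 3) ℂ).trace - (g : Matrix (Fin 3) (Fin 3) ℂ).trace := by
  have h := g.det_coe
  rw [Matrix.det_fin_three] at h
  have h1 : (↑(g⁻¹) : Matrix (Fin 3) (Fin 3) ℂ).trace =
      (g.1 1 1 * g.1 2 2 - g.1 1 2 * g.1 2 1) + (g.1 0 0 * g.1 2 2 - g.1 0 2 * g.1 2 0) +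
        (g.1 0 0 * g.1 1 1 - g.1 0 1 * g.1 1 0) := by
    rw [Matrix.SpecialLinearGroup.coe_inv, Matrix.adjugate_fin_three, Matrix.trace_fin_three]
    simp
  rw [h1, Matrix.trace_fin_three, Matrix.det_fin_three]
  simp only [Matrix.sub_apply, Matrix.one_apply_eq,
    Matrix.one_apply_ne (show (0 : Fin 3) ≠ 1 by decide),
    Matrix.one_apply_ne (show (0 : Fin 3) ≠ 2 by decide),
    Matrix.one_apply_ne (show (1 : Fin 3) ≠ 0 by decide),
    Matrix.one_apply_ne (show (1 : Fin 3) ≠ 2 by decide),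
    Matrix.one_apply_ne (show (2 : Fin 3) ≠ 0 by decide),
    Matrix.one_apply_ne (show (2 : Fin 3) ≠ 1 by decide)]
  linear_combination -h

/-- an element with `tr g = tr g⁻¹` has a fixed vector -/
theorem exists_axis (g : Matrix.SpecialLinearGroup (Fin 3) ℂ)
    (h : (g : Matrix (Fin 3) (Fin 3) ℂ).trace = (↑(g⁻¹) : Matrix (Fin 3) (Fin 3) ℂ).trace) :
    ∃ v : Fin 3 → ℂ, v ≠ 0 ∧ (g : Matrix (Fin 3) (Fin 3) ℂ).mulVec v = v := by
  have h1 : (1 - (g : Matrix (Fin 3) (Fin 3) ℂ)).det = 0 := by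
    rw [det_one_sub, h, sub_self]
  obtain ⟨v, hv, hv2⟩ := Matrix.exists_mulVec_eq_zero_iff.2 h1
  refine ⟨v, hv, ?_⟩
  rw [Matrix.sub_mulVec, Matrix.one_mulVec, sub_eq_zero] at hv2
  exact hv2.symm

/-- If all elements of a finite subgroup of `SL₃` have fixed vectors, and the lines fixed by the
elements `≠ 1` are equivalent, then the group has a fixed vector. -/
theorem common_axis (G : Subgroup (Matrix.SpecialLinearGroup (Fin 3) ℂ)) [Finite G]
    (h : ∀ g ∈ G, (g : Matrix (Fin 3) (Fin 3) ℂ).trace =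
      (↑(g⁻¹) : Matrix (Fin 3) (Fin 3) ℂ).trace)
    (hl : ∀ g ∈ G, g ≠ 1 → ∀ g' ∈ G, g' ≠ 1 → ∀ v w : Fin 3 → ℂ, v ≠ 0 → w ≠ 0 →
      (g : Matrix (Fin 3) (Fin 3) ℂ).mulVec v = v →
      (g' : Matrix (Fin 3) (Fin 3) ℂ).mulVec w = w →
      ∃ k ∈ G, ∃ c : ℂ, w = c • (k : Matrix (Fin 3) (Fin 3) ℂ).mulVec v) :
    ∃ v : Fin 3 → ℂ, v ≠ 0 ∧ ∀ g ∈ G, (g : Matrix (Fin 3) (Fin 3) ℂ).mulVec v = v := by
  by_cases h0 : ∀ g ∈ G, g = 1
  · refine ⟨fun _ => 1, fun h1 => one_ne_zero (congrFun h1 0), fun g hg => ?_⟩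
    rw [h0 g hg, Matrix.SpecialLinearGroup.coe_one, Matrix.one_mulVec]
  push Not at h0
  obtain ⟨g0, hg0, hg1⟩ := h0
  obtain ⟨v, hv0, hv⟩ := exists_axis g0 (h g0 hg0)
  refine ⟨v, hv0, ?_⟩
  obtain ⟨K, hK⟩ : ∃ K : Subgroup G, ∀ g : G, g ∈ K ↔
      ((g : Matrix.SpecialLinearGroup (Fin 3) ℂ) : Matrix (Fin 3) (Fin 3) ℂ).mulVec v = v := by
    refine ⟨{ carrier := {g : G | ((g : Matrix.SpecialLinearGroup (Fin 3) ℂ) :
                Matrix (Fin 3) (Fin 3) ℂ).mulVec v = v}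
              mul_mem' := ?_
              one_mem' := ?_
              inv_mem' := ?_ }, fun g => Iff.rfl⟩
    · intro a b ha hb
      show ((a * b : G) : Matrix.SpecialLinearGroup (Fin 3) ℂ).1.mulVec v = v
      rw [Subgroup.coe_mul, Matrix.SpecialLinearGroup.coe_mul, ← Matrix.mulVec_mulVec]
      have ha' : ((a : G) : Matrix.SpecialLinearGroup (Fin 3) ℂ).1.mulVec v = v := ha
      have hb' : ((b : G) : Matrix.SpecialLinearGroup (Fin 3) ℂ).1.mulVec v = v := hb
      rw [hb', ha']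
    · show ((1 : G) : Matrix.SpecialLinearGroup (Fin 3) ℂ).1.mulVec v = v
      rw [Subgroup.coe_one, Matrix.SpecialLinearGroup.coe_one, Matrix.one_mulVec]
    · intro a ha
      have ha' : ((a : G) : Matrix.SpecialLinearGroup (Fin 3) ℂ).1.mulVec v = v := ha
      show ((a⁻¹ : G) : Matrix.SpecialLinearGroup (Fin 3) ℂ).1.mulVec v = v
      conv_lhs => rw [← ha']
      rw [Matrix.mulVec_mulVec, Subgroup.coe_inv, ← Matrix.SpecialLinearGroup.coe_mul,
        inv_mul_cancel, Matrix.SpecialLinearGroup.coe_one, Matrix.one_mulVec]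
  have htop : K = ⊤ := by
    refine top_of_conj K fun g => ?_
    by_cases hg : (g : Matrix.SpecialLinearGroup (Fin 3) ℂ) = 1
    · refine ⟨1, ?_⟩
      have : g = 1 := Subtype.ext hg
      rw [this, inv_one, one_mul, one_mul]
      exact K.one_mem
    · obtain ⟨w, hw0, hw⟩ := exists_axis g (h g g.2)
      obtain ⟨k, hk, c, hc⟩ := hl g0 hg0 hg1 g g.2 hg v w hv0 hw0 hv hw
      have hc0 : c ≠ 0 := fun h1 => hw0 (by rw [hc, h1, zero_smul])
      refine ⟨⟨k, hk⟩, (hK _).2 ?_⟩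
      have h1 : ((g : Matrix.SpecialLinearGroup (Fin 3) ℂ) : Matrix (Fin 3) (Fin 3) ℂ).mulVec
          ((k : Matrix (Fin 3) (Fin 3) ℂ).mulVec v) = (k : Matrix (Fin 3) (Fin 3) ℂ).mulVec v := by
        rw [hc, Matrix.mulVec_smul] at hw
        exact smul_right_injective _ hc0 hw
      rw [Subgroup.coe_mul, Subgroup.coe_mul, Subgroup.coe_inv,
        Matrix.SpecialLinearGroup.coe_mul, Matrix.SpecialLinearGroup.coe_mul,
        ← Matrix.mulVec_mulVec, ← Matrix.mulVec_mulVec]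
      show (↑(k⁻¹) : Matrix (Fin 3) (Fin 3) ℂ).mulVec
        (((g : Matrix.SpecialLinearGroup (Fin 3) ℂ) : Matrix (Fin 3) (Fin 3) ℂ).mulVec
          ((k : Matrix (Fin 3) (Fin 3) ℂ).mulVec v)) = v
      rw [h1, Matrix.mulVec_mulVec, ← Matrix.SpecialLinearGroup.coe_mul, inv_mul_cancel,
        Matrix.SpecialLinearGroup.coe_one, Matrix.one_mulVec]
  intro g hg
  exact (hK ⟨g, hg⟩).1 (by rw [htop]; exact Subgroup.mem_top _)

end Pool.Agent.H37.EN
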