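import Mathlib

/-! # EN.Eval : evaluations at different conjugacy classes are independent -/

namespace Pool.Agent.H37.EN

open MvPolynomial

/-- the derivative `∂/∂X - ∂/∂Y` at `(t, t)` -/
noncomputable def dif (t : ℂ) (f : MvPolynomial (Fin 2) ℂ) : ℂ :=
  eval ![t, t] (pderiv 0 f) - eval ![t, t] (pderiv 1 f)

lemma dif_add (t : ℂ) (f g : MvPolynomial (Fin 2) ℂ) : dif t (f + g) = dif t f + dif t g := by
  simp only [dif, map_add]; ring

lemma dif_smul (t c : ℂ) (f : MvPolynomial (Fin 2) ℂ) : dif t (c • f) = c * dif t f := by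
  simp only [dif, Derivation.map_smul, smul_eval]
  ring

lemma dif_mon (t : ℂ) (a b : ℕ) :
    dif t (X 0 ^ a * X 1 ^ b) = ((a : ℂ) - b) * t ^ (a + b - 1) := by
  have e0 : pderiv (0 : Fin 2) (X 0 ^ a * X 1 ^ b : MvPolynomial (Fin 2) ℂ) =
      X 1 ^ b * ((a : MvPolynomial (Fin 2) ℂ) * X 0 ^ (a - 1)) := by
    simp only [Derivation.leibniz, Derivation.leibniz_pow, pderiv_X_self, smul_eq_mul,
      pderiv_X_of_ne (show (1 : Fin 2) ≠ 0 by decide), nsmul_eq_mul, mul_one, mul_zero, zero_add]
  have e1 : pderiv (1 : Fin 2) (X 0 ^ a * X 1 ^ b : MvPolynomial (Fin 2) ℂ) =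
      X 0 ^ a * ((b : MvPolynomial (Fin 2) ℂ) * X 1 ^ (b - 1)) := by
    simp only [Derivation.leibniz, Derivation.leibniz_pow, pderiv_X_self, smul_eq_mul,
      pderiv_X_of_ne (show (0 : Fin 2) ≠ 1 by decide), nsmul_eq_mul, mul_one, mul_zero, add_zero]
  have x0 : eval ![t, t] (X 0 : MvPolynomial (Fin 2) ℂ) = t := by simp
  have x1 : eval ![t, t] (X 1 : MvPolynomial (Fin 2) ℂ) = t := by simp
  rw [dif, e0, e1]
  simp only [map_mul, map_pow, map_natCast, x0, x1]
  rcases a with _ | a
  · rcases b with _ | b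
    · simp
    · simp only [Nat.cast_zero, zero_mul, mul_zero, pow_zero, one_mul, zero_sub, zero_add,
        Nat.add_sub_cancel]
      ring
  · rcases b with _ | b
    · simp
    · have h1 : a + 1 + (b + 1) - 1 = a + b + 1 := by omega
      have h2 : a + 1 - 1 = a := by omega
      have h3 : b + 1 - 1 = b := by omega
      rw [h1, h2, h3]
      push_cast
      ring

lemma dif_sq (t : ℂ) (h : MvPolynomial (Fin 2) ℂ) :
    dif t ((X 0 - X 1) ^ 2 * h) = 0 := by
  simp only [dif, Derivation.leibniz, Derivation.leibniz_pow, map_add, map_mul, map_pow, map_sub,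
    eval_X, Matrix.cons_val_zero, Matrix.cons_val_one, smul_eq_mul, nsmul_eq_mul]
  simp

/-- a polynomial which is one at a point and zero at finitely many other points -/
lemma separate (p : Fin 2 → ℂ) (s : Finset (Fin 2 → ℂ)) (hp : p ∉ s) :
    ∃ h : MvPolynomial (Fin 2) ℂ, eval p h ≠ 0 ∧ ∀ q ∈ s, eval q h = 0 := by
  classical
  induction s using Finset.induction_on with
  | empty => exact ⟨1, by simp, by simp⟩
  | insert q s hq ih =>
    obtain ⟨h, h1, h2⟩ := ih fun h => hp (Finset.mem_insert_of_mem h)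
    have hne : p ≠ q := fun h => hp (h ▸ Finset.mem_insert_self _ _)
    obtain ⟨i, hi⟩ : ∃ i, p i ≠ q i := by
      by_contra hcon
      push Not at hcon
      exact hne (funext hcon)
    refine ⟨(X i - C (q i)) * h, ?_, ?_⟩
    · rw [map_mul, map_sub, eval_X, eval_C]
      exact mul_ne_zero (sub_ne_zero.2 hi) h1
    · intro r hr
      rw [map_mul, map_sub, eval_X, eval_C]
      rcases Finset.mem_insert.1 hr with h3 | h3
      · rw [h3, sub_self, zero_mul]
      · rw [h2 r h3, mul_zero]

/-- Evaluations at points outside the diagonal do not occur in a relation with derivatives at points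
of the diagonal. -/
theorem no_isolated {ι J : Type*} [Fintype ι] [Fintype J] (x y : ι → ℂ) (w : ι → ℝ)
    (hxy : ∀ i, x i ≠ y i) (hw : ∀ i, 0 < w i) (B t : J → ℂ)
    (h : ∀ a b : ℕ, ∑ j, B j * (((a : ℂ) - b) * t j ^ (a + b - 1)) +
      ∑ i, (w i : ℂ) * (x i ^ a * y i ^ b) / (x i - y i) = 0) : IsEmpty ι := by
  classical
  rw [← not_nonempty_iff]
  rintro ⟨i0⟩
  -- the relation holds for all polynomials
  have key : ∀ f : MvPolynomial (Fin 2) ℂ, ∑ j, B j * dif (t j) f +
      ∑ i, (w i : ℂ) * eval ![x i, y i] f / (x i - y i) = 0 := by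
    intro f
    induction f using MvPolynomial.induction_on' with
    | monomial u c =>
      have e1 : monomial u c = c • (X 0 ^ u 0 * X 1 ^ u 1 : MvPolynomial (Fin 2) ℂ) := by
        rw [monomial_eq, smul_eq_C_mul, Finsupp.prod_fintype _ _ (fun i => pow_zero _),
          Fin.prod_univ_two]
      rw [e1]
      have h1 := h (u 0) (u 1)
      have e2 : ∑ j, B j * dif (t j) (c • (X 0 ^ u 0 * X 1 ^ u 1)) =
          c * ∑ j, B j * (((u 0 : ℂ) - (u 1 : ℕ)) * t j ^ (u 0 + u 1 - 1)) := by
        rw [Finset.mul_sum]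
        refine Finset.sum_congr rfl fun j _ => ?_
        rw [dif_smul, dif_mon]
        ring
      have e3 : ∑ i, (w i : ℂ) * eval ![x i, y i] (c • (X 0 ^ u 0 * X 1 ^ u 1)) / (x i - y i) =
          c * ∑ i, (w i : ℂ) * (x i ^ u 0 * y i ^ u 1) / (x i - y i) := by
        rw [Finset.mul_sum]
        refine Finset.sum_congr rfl fun i _ => ?_
        have x0 : eval ![x i, y i] (X 0 : MvPolynomial (Fin 2) ℂ) = x i := by simp
        have x1 : eval ![x i, y i] (X 1 : MvPolynomial (Fin 2) ℂ) = y i := by simp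
        rw [smul_eval, map_mul, map_pow, map_pow, x0, x1]
        ring
      rw [e2, e3, ← mul_add, h1, mul_zero]
    | add p q hp hq =>
      have e1 : ∑ j, B j * dif (t j) (p + q) = ∑ j, B j * dif (t j) p + ∑ j, B j * dif (t j) q := by
        rw [← Finset.sum_add_distrib]
        refine Finset.sum_congr rfl fun j _ => ?_
        rw [dif_add, mul_add]
      have e2 : ∑ i, (w i : ℂ) * eval ![x i, y i] (p + q) / (x i - y i) =
          ∑ i, (w i : ℂ) * eval ![x i, y i] p / (x i - y i) +
            ∑ i, (w i : ℂ) * eval ![x i, y i] q / (x i - y i) := by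
        rw [← Finset.sum_add_distrib]
        refine Finset.sum_congr rfl fun i _ => ?_
        rw [map_add, mul_add, add_div]
      rw [e1, e2]
      linear_combination hp + hq
  obtain ⟨s, hs⟩ : ∃ s : Finset (Fin 2 → ℂ),
      s = (Finset.univ.image fun i => ![x i, y i]).erase ![x i0, y i0] := ⟨_, rfl⟩
  obtain ⟨g, hg1, hg2⟩ := separate ![x i0, y i0] s (by rw [hs]; exact Finset.notMem_erase _ _)
  have h1 := key ((X 0 - X 1) ^ 2 * g)
  have h2 : ∑ j, B j * dif (t j) ((X 0 - X 1) ^ 2 * g) = 0 :=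
    Finset.sum_eq_zero fun j _ => by rw [dif_sq, mul_zero]
  rw [h2, zero_add] at h1
  have h3 : ∀ i, (w i : ℂ) * eval ![x i, y i] ((X 0 - X 1) ^ 2 * g) / (x i - y i) =
      ((if ![x i, y i] = ![x i0, y i0] then w i else 0 : ℝ) : ℂ) *
        ((x i0 - y i0) * eval ![x i0, y i0] g) := by
    intro i
    by_cases hi : ![x i, y i] = ![x i0, y i0]
    · rw [if_pos hi, hi]
      have hx : x i = x i0 := by simpa using congrFun hi 0
      have hy : y i = y i0 := by simpa using congrFun hi 1
      have hne : x i0 - y i0 ≠ 0 := sub_ne_zero.2 (hxy i0)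
      have x0 : eval ![x i0, y i0] (X 0 : MvPolynomial (Fin 2) ℂ) = x i0 := by simp
      have x1 : eval ![x i0, y i0] (X 1 : MvPolynomial (Fin 2) ℂ) = y i0 := by simp
      rw [hx, hy, map_mul, map_pow, map_sub, x0, x1]
      field_simp
    · rw [if_neg hi]
      have h4 : ![x i, y i] ∈ s := by
        rw [hs, Finset.mem_erase]
        exact ⟨hi, Finset.mem_image_of_mem _ (Finset.mem_univ _)⟩
      rw [map_mul, hg2 _ h4]
      simp
  rw [Finset.sum_congr rfl fun i _ => h3 i, ← Finset.sum_mul, ← Complex.ofReal_sum] at h1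
  have h5 : 0 < ∑ i, (if ![x i, y i] = ![x i0, y i0] then w i else 0) := by
    refine Finset.sum_pos' (fun i _ => ?_) ⟨i0, Finset.mem_univ _, ?_⟩
    · split_ifs
      · exact (hw i).le
      · exact le_rfl
    · rw [if_pos rfl]
      exact hw i0
  rcases mul_eq_zero.1 h1 with h6 | h6
  · rw [Complex.ofReal_eq_zero] at h6
    exact h5.ne' h6
  · exact mul_ne_zero (sub_ne_zero.2 (hxy i0)) hg1 h6

end Pool.Agent.H37.EN
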