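import Mathlib
import Pool.Agent.H37.EN.Eval
import Pool.Agent.H37.EN.Axis

/-! # EN.Orb : no dissident points -/

namespace Pool.Agent.H37.EN

/-- the trace of an element of `SL₃(ℂ)` -/
noncomputable def tr (g : Matrix.SpecialLinearGroup (Fin 3) ℂ) : ℂ :=
  (g : Matrix (Fin 3) (Fin 3) ℂ).trace

/-- the lines of `v` and `w` are equivalent under the group -/
def Equivalent (G : Subgroup (Matrix.SpecialLinearGroup (Fin 3) ℂ)) (v w : Fin 3 → ℂ) : Prop :=
  ∃ k ∈ G, ∃ c : ℂ, w = c • (k : Matrix (Fin 3) (Fin 3) ℂ).mulVec v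

/-- The threefold has only quotient singularities. `Pt` is the set of its dissident points, the points
near which it is not the product of a rational double point and a disc, `G p` the local group of the
point `p` and `chi a b` the Euler characteristic of the sheaf `(T^a ⊗ Ω^b)^**`. Over a dissident point
the fixed line of an element `g ≠ 1` of `G p` is mapped to a branch of the singular locus. `Two` means
that two different branches of it meet in a point. -/
structure Orbifold (chi : ℕ → ℕ → ℤ) (Two : Prop) (Pt J : Type) [Fintype Pt] [Fintype J]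
    (G : Pt → Subgroup (Matrix.SpecialLinearGroup (Fin 3) ℂ)) [∀ p, Fintype (G p)] where
  dissident : ∀ p (v : Fin 3 → ℂ), (∀ g ∈ G p, (g : Matrix (Fin 3) (Fin 3) ℂ).mulVec v = v) → v = 0
  /-- the sectors of the inertia orbifold of positive dimension and the traces of their elements -/
  t : J → ℂ
  B : J → ℂ
  /-- Kawasaki's Riemann-Roch theorem -/
  kawasaki : ∀ a b : ℕ, (chi a b : ℂ) = ∑ j, B j * (((a : ℂ) - b) * t j ^ (a + b - 1)) +
    ∑ p, (∑ g : {g : G p // tr g ≠ tr g.1⁻¹},
      tr g.1 ^ a * tr g.1.1⁻¹ ^ b / (tr g.1 - tr g.1.1⁻¹)) / Nat.card (G p)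
  /-- inequivalent fixed lines are mapped to different branches -/
  branch : ∀ p, ∀ g ∈ G p, ∀ h ∈ G p, g ≠ 1 → h ≠ 1 → ∀ v w : Fin 3 → ℂ, v ≠ 0 → w ≠ 0 →
    (g : Matrix (Fin 3) (Fin 3) ℂ).mulVec v = v → (h : Matrix (Fin 3) (Fin 3) ℂ).mulVec w = w →
    ¬ Equivalent (G p) v w → Two

namespace Orbifold

variable {chi : ℕ → ℕ → ℤ} {Two : Prop} {Pt J : Type} [Fintype Pt] [Fintype J]
  {G : Pt → Subgroup (Matrix.SpecialLinearGroup (Fin 3) ℂ)} [∀ p, Fintype (G p)]
  (X : Orbifold chi Two Pt J G)

include X in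
/-- If all Euler characteristics are zero and different branches of the singular locus do not meet
then there are no dissident points. -/
theorem empty (h0 : ∀ a b, chi a b = 0) (h2 : ¬ Two) : IsEmpty Pt := by
  classical
  rw [← not_nonempty_iff]
  rintro ⟨p⟩
  -- all elements of the local groups have fixed vectors
  have h3 : ∀ q, ∀ g ∈ G q, tr g = tr g⁻¹ := by
    obtain ⟨E⟩ : Nonempty (IsEmpty ((q : Pt) × {g : G q // tr g ≠ tr g.1⁻¹})) := by
      refine ⟨no_isolated (J := J) (fun i => tr i.2.1) (fun i => tr i.2.1.1⁻¹)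
        (fun i => 1 / Nat.card (G i.1)) (fun i => i.2.2) (fun i => ?_) X.B X.t ?_⟩
      · have : 0 < Nat.card (G i.1) := Nat.card_pos
        positivity
      · intro a b
        have h4 := X.kawasaki a b
        rw [h0, Int.cast_zero] at h4
        rw [h4, Fintype.sum_sigma]
        congr 1
        refine Finset.sum_congr rfl fun q _ => ?_
        rw [Finset.sum_div]
        refine Finset.sum_congr rfl fun g _ => ?_
        push_cast
        ring
    intro q g hg
    by_contra hcon
    exact E.false ⟨q, ⟨⟨g, hg⟩, hcon⟩⟩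
  obtain ⟨v, hv, hv2⟩ := common_axis (G p) (h3 p) (by
    intro g hg hg1 h hh hh1 v w hv hw h5 h6
    by_contra hcon
    exact h2 (X.branch p g hg h hh hg1 hh1 v w hv hw h5 h6 hcon))
  exact hv (X.dissident p v hv2)

end Orbifold

end Pool.Agent.H37.EN
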