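import Mathlib
import Pool.Agent.H37.EN.Axis

/-! # EN.Orc : no dissident points, from one combination of Euler characteristics -/

namespace Pool.Agent.H37.EN

/-- the trace of an element of `SL₃(ℂ)` -/
noncomputable def trace (g : Matrix.SpecialLinearGroup (Fin 3) ℂ) : ℂ :=
  (g : Matrix (Fin 3) (Fin 3) ℂ).trace

/-- the threefold has only quotient singularities. `Pt` is the set of its dissident points, the points
near which it is not the product of a rational double point and a disc, `G p` the local group of the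
point `p`, a finite group of unitary matrices, and `chi a b` the Euler characteristic of the sheaf
`(T^a ⊗ Ω^b)^**`. The fixed line of an element `g ≠ 1` of `G p` is mapped to a branch of the singular
locus. `Two` means that two different branches meet in a point. -/
structure Orbifold₂ (chi : ℕ → ℕ → ℤ) (Two : Prop) (Pt : Type) [Fintype Pt]
    (G : Pt → Subgroup (Matrix.SpecialLinearGroup (Fin 3) ℂ)) [∀ p, Fintype (G p)] where
  dissident : ∀ p (v : Fin 3 → ℂ), (∀ g ∈ G p, (g : Matrix (Fin 3) (Fin 3) ℂ).mulVec v = v) → v = 0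
  unitary : ∀ p, ∀ g ∈ G p, trace g⁻¹ = star (trace g)
  /-- Kawasaki's Riemann-Roch theorem for the virtual sheaf `(T - Ω)^3` -/
  kawasaki : (chi 3 0 - 3 * chi 2 1 + 3 * chi 1 2 - chi 0 3 : ℂ) =
    ∑ p, (∑ g : G p, (trace g - trace g.1⁻¹) ^ 2) / Nat.card (G p)
  /-- inequivalent fixed lines are mapped to different branches -/
  branch : ∀ p, ∀ g ∈ G p, ∀ h ∈ G p, g ≠ 1 → h ≠ 1 → ∀ v w : Fin 3 → ℂ, v ≠ 0 → w ≠ 0 →
    (g : Matrix (Fin 3) (Fin 3) ℂ).mulVec v = v → (h : Matrix (Fin 3) (Fin 3) ℂ).mulVec w = w →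
    (¬ ∃ k ∈ G p, ∃ c : ℂ, w = c • (k : Matrix (Fin 3) (Fin 3) ℂ).mulVec v) → Two

namespace Orbifold₂

variable {chi : ℕ → ℕ → ℤ} {Two : Prop} {Pt : Type} [Fintype Pt]
  {G : Pt → Subgroup (Matrix.SpecialLinearGroup (Fin 3) ℂ)} [∀ p, Fintype (G p)]
  (X : Orbifold₂ chi Two Pt G)

include X in
/-- all traces are real -/
theorem real (h : chi 3 0 - 3 * chi 2 1 + 3 * chi 1 2 - chi 0 3 = 0) (p : Pt)
    (g : Matrix.SpecialLinearGroup (Fin 3) ℂ) (hg : g ∈ G p) : trace g = trace g⁻¹ := by
  have h1 : ∀ (q : Pt) (k : G q),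
      (trace k - trace k.1⁻¹) ^ 2 = ((-4 * (trace k).im ^ 2 : ℝ) : ℂ) := by
    intro q k
    rw [X.unitary q k k.2]
    apply Complex.ext
    · simp [sq]
      ring
    · simp [sq]
  have h2 := X.kawasaki
  have h3 : (chi 3 0 - 3 * chi 2 1 + 3 * chi 1 2 - chi 0 3 : ℂ) = 0 := by exact_mod_cast h
  have h4 : ∑ q, (∑ k : G q, (trace k - trace k.1⁻¹) ^ 2) / (Nat.card (G q) : ℂ) =
      ((∑ q, (∑ k : G q, -4 * (trace k).im ^ 2) / Nat.card (G q) : ℝ) : ℂ) := by
    push_cast
    refine Finset.sum_congr rfl fun q _ => ?_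
    congr 1
    refine Finset.sum_congr rfl fun k _ => ?_
    rw [h1 q k]
    push_cast
    ring
  rw [h3, h4] at h2
  have h5 : ∑ q, (∑ k : G q, -4 * (trace k).im ^ 2) / (Nat.card (G q) : ℝ) = 0 := by
    exact_mod_cast h2.symm
  have hpos : ∀ q, (0 : ℝ) < Nat.card (G q) := fun q => by
    have : 0 < Nat.card (G q) := Nat.card_pos
    exact_mod_cast this
  have h6 : ∀ q, (∑ k : G q, -4 * (trace k).im ^ 2) / (Nat.card (G q) : ℝ) ≤ 0 := fun q =>
    div_nonpos_of_nonpos_of_nonneg (Finset.sum_nonpos fun k _ => by nlinarith [sq_nonneg (trace k).im])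
      (hpos q).le
  have h7 := (Finset.sum_eq_zero_iff_of_nonpos fun q _ => h6 q).1 h5 p (Finset.mem_univ p)
  have h8 : ∑ k : G p, -4 * (trace k).im ^ 2 = 0 := by
    rcases div_eq_zero_iff.1 h7 with h | h
    · exact h
    · exact absurd h (hpos p).ne'
  have h9 := (Finset.sum_eq_zero_iff_of_nonpos fun (k : G p) _ =>
    (by nlinarith [sq_nonneg (trace k).im] : -4 * (trace k).im ^ 2 ≤ 0)).1 h8 ⟨g, hg⟩
      (Finset.mem_univ _)
  have h10 : (trace g).im = 0 := by
    have : (trace g).im ^ 2 = 0 := by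
      simp only at h9
      linarith
    exact pow_eq_zero_iff (two_ne_zero) |>.1 this
  rw [X.unitary p g hg]
  apply Complex.ext
  · simp
  · simp [h10]

include X in
/-- If the Euler characteristics are zero and different branches of the singular locus do not meet
then there are no dissident points. -/
theorem empty (h : chi 3 0 - 3 * chi 2 1 + 3 * chi 1 2 - chi 0 3 = 0) (h2 : ¬ Two) :
    IsEmpty Pt := by
  rw [← not_nonempty_iff]
  rintro ⟨p⟩
  obtain ⟨v, hv, hv2⟩ := common_axis (G p) (X.real h p) (by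
    intro g hg hg1 h hh hh1 v w hv hw h5 h6
    by_contra hcon
    exact h2 (X.branch p g hg h hh hg1 hh1 v w hv hw h5 h6 hcon))
  exact hv (X.dissident p v hv2)

end Orbifold₂

end Pool.Agent.H37.EN
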